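import Pool.Agent.H29.SX.Targets

/-!
# Row GR2 of the board shx_modules (helper42), MP_c65535_nt

The rank of the values at the twists by the characters of order `q`, lower bound.
-/

set_option autoImplicit false

namespace Pool.Agent.H42.SX

open NumberField Height Finset Polynomial Pool.Agent.H24.RD Pool.Agent.H23.RDD
  Pool.Agent.H29.RQ Pool.Agent.H29.SX

/-- multiplication of the coefficients by a function -/
noncomputable def tw {A K : Type} [Field K] (c : A → K) (g : A →₀ K) : A →₀ K :=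
  Finsupp.onFinset g.support (fun a => c a * g a) fun a ha =>
    Finsupp.mem_support_iff.mpr (right_ne_zero_of_mul ha)

theorem ev_tw {A K Ω : Type} [Field K] [Field Ω] [Algebra K Ω] (y : A → Ω) (c : A → K)
    (g : A →₀ K) : ev K y (tw c g) = ev K (fun a => algebraMap K Ω (c a) * y a) g := by
  unfold ev tw
  rw [Finsupp.onFinset_sum _ (fun a => by rw [map_zero, zero_mul])]
  unfold Finsupp.sum
  refine Finset.sum_congr rfl fun a _ => ?_
  rw [map_mul]
  ring

theorem spt_tw {A K : Type} [Field K] {N : A → ℝ} {ρ : ℝ} (c : A → K) {g : A →₀ K}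
    (hg : Spt N ρ g) : Spt N ρ (tw c g) :=
  fun a ha => hg a (Finsupp.support_onFinset_subset ha)

theorem ev_single {A K Ω : Type} [Field K] [Field Ω] [Algebra K Ω] (y : A → Ω) (a : A) (c : K) :
    ev K y (Finsupp.single a c) = algebraMap K Ω c * y a := by
  unfold ev
  rw [Finsupp.sum_single_index]
  rw [map_zero, zero_mul]

/-- the character of the exponent `e` -/
noncomputable def ch {K : Type} [Field K] (ζ : K) {m q : ℕ} (e : Fin m → Fin q)
    (a : Fin m → ℤ) : K := ζ ^ (∑ l, ((e l : ℕ) : ℤ) * a l)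

theorem ch_ne {K : Type} [Field K] {ζ : K} (hζ : ζ ≠ 0) {m q : ℕ} (e : Fin m → Fin q)
    (a : Fin m → ℤ) : ch ζ e a ≠ 0 := zpow_ne_zero _ hζ

theorem ch_pt {K : Type} [Field K] {ζ : K} (hζ : ζ ≠ 0) {m q : ℕ} (e : Fin m → Fin q) :
    IsPt (ch ζ e) := by
  constructor
  · unfold ch
    simp
  · intro a b
    unfold ch
    rw [← zpow_add₀ hζ, ← Finset.sum_add_distrib]
    congr 1
    refine Finset.sum_congr rfl fun l _ => ?_
    rw [Pi.add_apply, mul_add]

theorem ch_pow {K : Type} [Field K] {ζ : K} {m q : ℕ} (hq : ζ ^ q = 1) (e : Fin m → Fin q)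
    (a : Fin m → ℤ) : ch ζ e a ^ q = 1 := by
  unfold ch
  rw [← zpow_natCast, ← zpow_mul, mul_comm, zpow_mul, zpow_natCast, hq, one_zpow]

theorem ch_unit {K : Type} [Field K] (ζ : K) {m q : ℕ} (e : Fin m → Fin q) (l : Fin m) :
    ch ζ e (Pi.single l 1) = ζ ^ (e l : ℕ) := by
  unfold ch
  rw [Finset.sum_eq_single l]
  · rw [Pi.single_eq_same, mul_one, zpow_natCast]
  · intro b _ hb
    rw [Pi.single_eq_of_ne hb, mul_zero]
  · intro h
    exact absurd (Finset.mem_univ l) h

theorem norm_zero {A : Type} [AddCommGroup A] {N : A → ℝ} (hN : IsNm N) : N 0 = 0 := by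
  have h := hN.nsm 0 0
  simpa using h

section main

variable {K Ω : Type} [Field K] [Field Ω] [Algebra K Ω] {m : ℕ}

/-- the twisted point -/
noncomputable def ye (K : Type) {Ω : Type} [Field K] [Field Ω] [Algebra K Ω] {m q : ℕ} (ζ : K)
    (y : (Fin m → ℤ) → Ω) (e : Fin m → Fin q) (a : Fin m → ℤ) : Ω :=
  algebraMap K Ω (ch ζ e a) * y a

theorem ye_pt {ζ : K} (hζ : ζ ≠ 0) {q : ℕ} {y : (Fin m → ℤ) → Ω} (hy : IsPt y)
    (e : Fin m → Fin q) : IsPt (ye K ζ y e) := by
  constructor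
  · unfold ye
    rw [(ch_pt hζ e).zero, hy.zero, map_one, one_mul]
  · intro a b
    unfold ye
    rw [(ch_pt hζ e).add, hy.add, map_mul]
    ring

/-- separation of two twists -/
theorem sep {p i : ℕ} {ζ : K} (hζ : IsPrimitiveRoot ζ (p ^ i)) (hp : p.Prime)
    {y : (Fin m → ℤ) → Ω} {N : (Fin m → ℤ) → ℝ} {σ : ℝ} (hst : StabT K p y N σ)
    {e e' : Fin m → Fin (p ^ i)} (hne : e ≠ e') :
    ∃ f : (Fin m → ℤ) →₀ K, Spt N σ f ∧ ev K (ye K ζ y e) f ≠ 0 ∧ ev K (ye K ζ y e') f = 0 := by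
  have hq : p ^ i ≠ 0 := (pow_pos hp.pos i).ne'
  have hζ0 : ζ ≠ 0 := hζ.ne_zero hq
  have hc := fun a => ch_ne hζ0 e' a
  set χ : (Fin m → ℤ) → K := fun a => ch ζ e a * (ch ζ e' a)⁻¹ with hχ
  have hχp : IsPt χ := by
    constructor
    · simp only [hχ]
      rw [(ch_pt hζ0 e).zero, (ch_pt hζ0 e').zero, inv_one, one_mul]
    · intro a b
      simp only [hχ]
      rw [(ch_pt hζ0 e).add, (ch_pt hζ0 e').add, mul_inv]
      ring
  have hχo : ∀ a, ∃ j : ℕ, χ a ^ (p ^ j) = 1 := by
    intro a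
    refine ⟨i, ?_⟩
    simp only [hχ]
    rw [mul_pow, inv_pow, ch_pow hζ.pow_eq_one, ch_pow hζ.pow_eq_one, inv_one, one_mul]
  by_contra hno
  push Not at hno
  have h1 := hst χ hχp hχo (fun g hg hg0 => by
    by_contra hg1
    have h2 := hno (tw (fun a => (ch ζ e' a)⁻¹) g) (spt_tw _ hg) (by
      rw [ev_tw]
      have h3 : (fun a => algebraMap K Ω ((ch ζ e' a)⁻¹) * ye K ζ y e a) =
          fun a => algebraMap K Ω (χ a) * y a := by
        funext a
        simp only [hχ]
        unfold ye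
        rw [map_mul]
        ring
      rw [h3]
      exact hg1)
    apply h2
    rw [ev_tw]
    have h4 : (fun a => algebraMap K Ω ((ch ζ e' a)⁻¹) * ye K ζ y e' a) = y := by
      funext a
      unfold ye
      rw [← mul_assoc, ← map_mul, inv_mul_cancel₀ (hc a), map_one, one_mul]
    rw [h4]
    exact hg0)
  apply hne
  funext l
  have h5 := h1 (Pi.single l 1)
  simp only [hχ] at h5
  rw [ch_unit, ch_unit] at h5
  have h6 : ζ ^ (e l : ℕ) = ζ ^ (e' l : ℕ) := by
    rwa [mul_inv_eq_one₀ (pow_ne_zero _ hζ0)] at h5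
  exact Fin.ext (hζ.pow_inj (e l).2 (e' l).2 h6)

/-- the product of the separating polynomials -/
theorem sep_all (hMUJ : T_MUJ) {p i : ℕ} {ζ : K} (hζ : IsPrimitiveRoot ζ (p ^ i))
    (hp : p.Prime) {y : (Fin m → ℤ) → Ω} (hy : IsPt y) {N : (Fin m → ℤ) → ℝ} (hN : IsNm N)
    {σ : ℝ} (hst : StabT K p y N σ) (e : Fin m → Fin (p ^ i))
    (S : Finset (Fin m → Fin (p ^ i))) (hS : e ∉ S) :
    ∃ G : (Fin m → ℤ) →₀ K, Spt N (S.card * σ) G ∧ ev K (ye K ζ y e) G ≠ 0 ∧
      ∀ e' ∈ S, ev K (ye K ζ y e') G = 0 := by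
  classical
  have hq : p ^ i ≠ 0 := (pow_pos hp.pos i).ne'
  have hζ0 : ζ ≠ 0 := hζ.ne_zero hq
  induction S using Finset.induction_on with
  | empty =>
    refine ⟨Finsupp.single 0 1, ?_, ?_, fun e' he' => absurd he' (Finset.notMem_empty e')⟩
    · intro a ha
      have h1 : a = 0 := by
        have h2 := Finsupp.support_single_subset ha
        exact Finset.mem_singleton.mp h2
      rw [h1, norm_zero hN, Finset.card_empty]
      simp
    · rw [ev_single, (ye_pt hζ0 hy e).zero, map_one, one_mul]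
      exact one_ne_zero
  | insert e₁ S h₁ ih =>
    rw [Finset.mem_insert, not_or] at hS
    obtain ⟨G, hG, hG1, hG0⟩ := ih hS.2
    obtain ⟨f, hf, hf1, hf0⟩ := sep hζ hp hst hS.1
    obtain ⟨k, hk, hkz, -⟩ := hMUJ K Ω m m (AddMonoidHom.id _) N hN y hy 1 f G σ (S.card * σ)
      hf hG
    refine ⟨k, ?_, ?_, ?_⟩
    · intro a ha
      have h2 := hk a ha
      rw [Finset.card_insert_of_notMem h₁]
      push_cast at h2 ⊢
      linarith
    · rw [hkz _ (ye_pt hζ0 hy e), pow_one]
      exact mul_ne_zero hf1 hG1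
    · intro e' he'
      rw [hkz _ (ye_pt hζ0 hy e'), pow_one]
      rcases Finset.mem_insert.mp he' with rfl | h3
      · rw [hf0, zero_mul]
      · rw [hG0 e' h3, mul_zero]

/-- the vector of the values of a Laurent polynomial -/
theorem val_mem {q : ℕ} (ζ : K) (y : (Fin m → ℤ) → Ω) (N : (Fin m → ℤ) → ℝ) (ρ : ℝ)
    (k : (Fin m → ℤ) →₀ K) (hk : Spt N ρ k) :
    (fun e : Fin m → Fin q => ev K (ye K ζ y e) k) ∈ Submodule.span K
      ((fun (a : Fin m → ℤ) (e : Fin m → Fin q) => ye K ζ y e a) '' {a | N a ≤ ρ}) := by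
  have h1 : (fun e : Fin m → Fin q => ev K (ye K ζ y e) k) =
      ∑ a ∈ k.support, k a • fun e : Fin m → Fin q => ye K ζ y e a := by
    funext e
    rw [Finset.sum_apply]
    unfold ev Finsupp.sum
    refine Finset.sum_congr rfl fun a _ => ?_
    rw [Pi.smul_apply, Algebra.smul_def]
  rw [h1]
  exact Submodule.sum_mem _ fun a ha => Submodule.smul_mem _ _
    (Submodule.subset_span ⟨a, hk a ha, rfl⟩)

theorem pf_GR2 (h : T_MUJ) : T_GR2 := by
  classical
  intro K Ω _ _ _ p hp i ζ hζ m y N σ hy hN hσ hst ρ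
  have hq : p ^ i ≠ 0 := (pow_pos hp.pos i).ne'
  have hζ0 : ζ ≠ 0 := hζ.ne_zero hq
  set ρ' : ℝ := ρ - ((p : ℝ) ^ i) ^ m * σ with hρ'
  set V : Submodule K ((Fin m → Fin (p ^ i)) → Ω) := Submodule.span K
      ((fun (a : Fin m → ℤ) (e : Fin m → Fin (p ^ i)) => ye K ζ y e a) '' {a | N a ≤ ρ}) with hV
  change (p ^ i) ^ m * Module.finrank K (WW K y N ρ') ≤ Module.finrank K V
  have hVf : Module.Finite K V := FiniteDimensional.span_of_finite K ((hN.fin ρ).image _)
  have hWf : Module.Finite K (WW K y N ρ') :=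
    FiniteDimensional.span_of_finite K ((hN.fin ρ').image _)
  -- the separating polynomials
  have hsep : ∀ e : Fin m → Fin (p ^ i), ∃ G : (Fin m → ℤ) →₀ K,
      Spt N (((p : ℝ) ^ i) ^ m * σ) G ∧ ev K (ye K ζ y e) G ≠ 0 ∧
      ∀ e', e' ≠ e → ev K (ye K ζ y e') G = 0 := by
    intro e
    obtain ⟨G, hG, hG1, hG0⟩ := sep_all h hζ hp hy hN hst e (Finset.univ.erase e)
      (Finset.notMem_erase e _)
    refine ⟨G, fun a ha => (hG a ha).trans ?_, hG1, fun e' he' => hG0 e' ?_⟩
    · refine mul_le_mul_of_nonneg_right ?_ hσ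
      have h1 : (Finset.univ.erase e).card ≤ (p ^ i) ^ m := by
        refine (Finset.card_le_card (Finset.erase_subset _ _)).trans ?_
        rw [Finset.card_univ, Fintype.card_fun, Fintype.card_fin, Fintype.card_fin]
      calc (((Finset.univ.erase e).card : ℕ) : ℝ) ≤ (((p ^ i) ^ m : ℕ) : ℝ) := by
            exact_mod_cast h1
        _ = ((p : ℝ) ^ i) ^ m := by push_cast; ring
    · exact Finset.mem_erase.mpr ⟨he', Finset.mem_univ _⟩
  choose G hG hG1 hG0 using hsep
  -- vectors with one coordinate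
  have hone : ∀ (e : Fin m → Fin (p ^ i)) (w : Ω), w ∈ WW K y N ρ' →
      (Pi.single e (ev K (ye K ζ y e) (G e) * w) : (Fin m → Fin (p ^ i)) → Ω) ∈ V := by
    intro e w hw
    unfold WW at hw
    induction hw using Submodule.span_induction with
    | mem w hw =>
      obtain ⟨a, ha, rfl⟩ := hw
      obtain ⟨k, hk, hkz, -⟩ := h K Ω m m (AddMonoidHom.id _) N hN y hy 1 (G e)
        (Finsupp.single a ((ch ζ e a)⁻¹)) (((p : ℝ) ^ i) ^ m * σ) ρ' (hG e) (by
          intro b hb
          have h2 := Finset.mem_singleton.mp (Finsupp.support_single_subset hb)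
          rw [h2]
          exact ha)
      have h3 := val_mem (q := p ^ i) ζ y N ρ k (fun b hb => by
        have h4 := hk b hb
        rw [hρ'] at h4
        push_cast at h4
        linarith)
      have h5 : (fun e' : Fin m → Fin (p ^ i) => ev K (ye K ζ y e') k) =
          Pi.single e (ev K (ye K ζ y e) (G e) * y a) := by
        funext e'
        rw [hkz _ (ye_pt hζ0 hy e'), pow_one, ev_single]
        by_cases he : e' = e
        · rw [he, Pi.single_eq_same]
          congr 1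
          unfold ye
          rw [← mul_assoc, ← map_mul, inv_mul_cancel₀ (ch_ne hζ0 e a), map_one, one_mul]
        · rw [Pi.single_eq_of_ne he, hG0 e e' he, zero_mul]
      rw [← h5]
      exact h3
    | zero =>
      rw [mul_zero, Pi.single_zero]
      exact Submodule.zero_mem _
    | add w w' _ _ ih ih' =>
      rw [mul_add, Pi.single_add]
      exact Submodule.add_mem _ ih ih'
    | smul c w _ ih =>
      rw [mul_smul_comm, Pi.single_smul]
      exact Submodule.smul_mem _ _ ih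
  -- the injective map
  set Φ₀ : ((Fin m → Fin (p ^ i)) → WW K y N ρ') →ₗ[K] ((Fin m → Fin (p ^ i)) → Ω) :=
    LinearMap.pi fun e => (LinearMap.mulLeft K (ev K (ye K ζ y e) (G e))) ∘ₗ
      (WW K y N ρ').subtype ∘ₗ LinearMap.proj e with hΦ₀
  have hΦ : ∀ w, Φ₀ w ∈ V := by
    intro w
    have h1 : Φ₀ w = ∑ e, Pi.single e (ev K (ye K ζ y e) (G e) * (w e : Ω)) :=
      (Finset.univ_sum_single (Φ₀ w)).symm
    rw [h1]
    exact Submodule.sum_mem _ fun e _ => hone e _ (w e).2
  have hinj : Function.Injective (LinearMap.codRestrict V Φ₀ hΦ) := by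
    intro w w' hw
    have h1 : Φ₀ w = Φ₀ w' := congrArg Subtype.val hw
    funext e
    have h2 : ev K (ye K ζ y e) (G e) * (w e : Ω) = ev K (ye K ζ y e) (G e) * (w' e : Ω) :=
      congrFun h1 e
    exact Subtype.ext (mul_left_cancel₀ (hG1 e) h2)
  have hfin := LinearMap.finrank_le_finrank_of_injective hinj
  rw [Module.finrank_pi_fintype, Finset.sum_const, Finset.card_univ, Fintype.card_fun,
    Fintype.card_fin, Fintype.card_fin, smul_eq_mul] at hfin
  exact hfin

end main

end Pool.Agent.H42.SX
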