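import Pool.Agent.H29.SX.Targets

/-!
# Row GRO of the board shx_modules (helper42), MP_c65535_nt

Growth of the rank of the values under `q`-th powers.
-/

set_option autoImplicit false

namespace Pool.Agent.H42.SX

open NumberField Height Finset Polynomial Pool.Agent.H24.RD Pool.Agent.H23.RDD
  Pool.Agent.H29.RQ Pool.Agent.H29.SX

theorem pf_GRO (h1 : T_GR1) (h2 : T_GR2) : T_GRO := by
  intro K Ω _ _ _ _ p hp hmu m y N σ hy hN hσ hst i ρ
  obtain ⟨ζ, hζ⟩ := hmu i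
  have hq : 0 < p ^ i := pow_pos hp.pos i
  have ha := h1 K Ω (p ^ i) hq ζ hζ m y N hy hN ρ
  have hb := h2 K Ω p hp i ζ hζ m y N σ hy hN hσ hst ((p : ℝ) ^ i * ρ)
  have hc : ((p ^ i : ℕ) : ℝ) = (p : ℝ) ^ i := by push_cast; rfl
  rw [hc] at ha
  exact Nat.le_of_mul_le_mul_left (hb.trans ha) (pow_pos hq m)

end Pool.Agent.H42.SX
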